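import Pool.Agent.W355.FR.Stm

set_option autoImplicit false

namespace Pool.Agent.W995.FR.RADL

open Pool.Agent.W355.FR Polynomial

theorem key (h : ℤ) (z H : ℕ) (d ε : ℝ) (hε : 0 < ε) (hH : 2 ≤ H)
    (h1 : ∀ p : ℕ, p.Prime → z < p → ¬ (p : ℤ) ^ 2 ∣ h)
    (h2 : ∀ p : ℕ, p.Prime → p ≤ z → ∀ e : ℕ, (p : ℤ) ^ e ∣ h →
      (p : ℝ) ^ e ≤ (H : ℝ) ^ (ε / (2 * (z + 1))))
    (h3 : (H : ℝ) ^ (d - ε / 2) < |((h : ℤ) : ℝ)|) :
    h ≠ 0 ∧ (d - ε) * Real.log H ≤
      ∑ p ∈ h.natAbs.primeFactors.filter (fun p => z < p), Real.log p := by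
  have hH1 : (1 : ℝ) ≤ (H : ℝ) := by exact_mod_cast (by omega : 1 ≤ H)
  have hH0 : (0 : ℝ) < (H : ℝ) := by linarith
  have hlog : 0 ≤ Real.log H := Real.log_nonneg hH1
  have hne : h ≠ 0 := by
    rintro rfl
    have := Real.rpow_nonneg hH0.le (d - ε / 2)
    simp at h3
    linarith
  refine ⟨hne, ?_⟩
  set m := h.natAbs with hm
  have hm0 : m ≠ 0 := by simpa [hm] using hne
  have hmr : |((h : ℤ) : ℝ)| = (m : ℝ) := by
    rw [hm, Nat.cast_natAbs]; simp
  rw [hmr] at h3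
  have hmpos : (0 : ℝ) < m := by positivity
  have hlow : (d - ε / 2) * Real.log H < Real.log m := by
    rw [← Real.log_rpow hH0]
    exact Real.log_lt_log (Real.rpow_pos_of_pos hH0 _) h3
  have hfac : Real.log m = ∑ p ∈ m.primeFactors, (m.factorization p : ℝ) * Real.log p := by
    rw [Real.log_nat_eq_sum_factorization]
    rfl
  have hdvd : ∀ p e : ℕ, p ^ e ∣ m → (p : ℤ) ^ e ∣ h := by
    intro p e hd
    rw [← Int.dvd_natAbs]
    exact_mod_cast hd
  have hbig : ∀ p ∈ m.primeFactors.filter (fun p => z < p),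
      (m.factorization p : ℝ) * Real.log p ≤ Real.log p := by
    intro p hp
    rw [Finset.mem_filter] at hp
    have hpp := Nat.prime_of_mem_primeFactors hp.1
    have hle : m.factorization p ≤ 1 := by
      by_contra hcon
      push Not at hcon
      exact h1 p hpp hp.2 (hdvd p 2 ((pow_dvd_pow p hcon).trans (Nat.ordProj_dvd m p)))
    have hlp : 0 ≤ Real.log p := Real.log_nonneg (by exact_mod_cast hpp.one_lt.le)
    have : (m.factorization p : ℝ) ≤ 1 := by exact_mod_cast hle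
    nlinarith
  have hsmall : ∀ p ∈ m.primeFactors.filter (fun p => ¬ z < p),
      (m.factorization p : ℝ) * Real.log p ≤ ε / (2 * (z + 1)) * Real.log H := by
    intro p hp
    rw [Finset.mem_filter] at hp
    have hpp := Nat.prime_of_mem_primeFactors hp.1
    have hb := h2 p hpp (by omega) (m.factorization p) (hdvd p _ (Nat.ordProj_dvd m p))
    rw [← Real.log_pow, ← Real.log_rpow hH0]
    apply Real.log_le_log _ hb
    have : (0 : ℝ) < p := by exact_mod_cast hpp.pos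
    positivity
  have hcard : ((m.primeFactors.filter (fun p => ¬ z < p)).card : ℝ) ≤ z := by
    have : (m.primeFactors.filter (fun p => ¬ z < p)).card ≤ (Finset.Icc 1 z).card := by
      apply Finset.card_le_card
      intro p hp
      rw [Finset.mem_filter] at hp
      have hpp := Nat.prime_of_mem_primeFactors hp.1
      rw [Finset.mem_Icc]
      exact ⟨hpp.pos, by omega⟩
    rw [Nat.card_Icc] at this
    exact_mod_cast (by omega : (m.primeFactors.filter (fun p => ¬ z < p)).card ≤ z)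
  have hε' : 0 ≤ ε / (2 * ((z : ℝ) + 1)) * Real.log H := by positivity
  have hs1 : ∑ p ∈ m.primeFactors.filter (fun p => ¬ z < p),
      (m.factorization p : ℝ) * Real.log p ≤ z * (ε / (2 * (z + 1)) * Real.log H) := by
    refine (Finset.sum_le_sum hsmall).trans ?_
    rw [Finset.sum_const, nsmul_eq_mul]
    exact mul_le_mul_of_nonneg_right hcard hε'
  have hs2 := Finset.sum_le_sum hbig
  have hz : (z : ℝ) * (ε / (2 * (z + 1)) * Real.log H) ≤ ε / 2 * Real.log H := by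
    rw [← mul_assoc]
    apply mul_le_mul_of_nonneg_right _ hlog
    rw [mul_div_assoc', div_le_div_iff₀ (by positivity) (by norm_num)]
    nlinarith [(Nat.cast_nonneg z : (0 : ℝ) ≤ z)]
  have hsplit := Finset.sum_filter_add_sum_filter_not m.primeFactors (fun p => z < p)
    (fun p => (m.factorization p : ℝ) * Real.log p)
  have : (d - ε) * Real.log H = (d - ε / 2) * Real.log H - ε / 2 * Real.log H := by ring
  linarith

theorem main : P_RADL := by
  classical
  intro hSQ hSMO hSMA P hP hd hd4 ε δ hε hδ z₁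
  obtain ⟨z₀, hz₀⟩ := hSQ P hP hd hd4 (δ / 3) (by positivity)
  refine ⟨max z₁ z₀, le_max_left _ _, ?_⟩
  set z := max z₁ z₀ with hz
  obtain ⟨H1, hH1⟩ := hz₀ z (le_max_right _ _)
  obtain ⟨H2, hH2⟩ := hSMO P hd z (ε / (2 * (z + 1))) (δ / 3) (by positivity) (by positivity)
  obtain ⟨H3, hH3⟩ := hSMA P hd (ε / 2) (δ / 3) (by positivity) (by positivity)
  refine ⟨max (max H1 H2) (max H3 2), ?_⟩
  intro H hH s hs hbad
  have hHa : H1 ≤ H := ((le_max_left _ _).trans (le_max_left _ _)).trans hH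
  have hHb : H2 ≤ H := ((le_max_right _ _).trans (le_max_left _ _)).trans hH
  have hHc : H3 ≤ H := ((le_max_left _ _).trans (le_max_right _ _)).trans hH
  have hHd : 2 ≤ H := ((le_max_right _ _).trans (le_max_right _ _)).trans hH
  set s1 := s.filter (fun x => ∃ p : ℕ, p.Prime ∧ z < p ∧
    (p : ℤ) ^ 2 ∣ hv P.natDegree P x.1 x.2) with hs1
  set s2 := s.filter (fun x => ∃ p : ℕ, p.Prime ∧ p ≤ z ∧ ∃ e : ℕ,
    (H : ℝ) ^ (ε / (2 * ((z : ℝ) + 1))) < (p : ℝ) ^ e ∧
      (p : ℤ) ^ e ∣ hv P.natDegree P x.1 x.2) with hs2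
  set s3 := s.filter (fun x => |((hv P.natDegree P x.1 x.2 : ℤ) : ℝ)| ≤
    (H : ℝ) ^ ((P.natDegree : ℝ) - ε / 2)) with hs3
  have c1 : (s1.card : ℝ) ≤ δ / 3 * (H : ℝ) ^ 2 :=
    hH1 H hHa s1 ((Finset.filter_subset _ _).trans hs) (fun x hx => (Finset.mem_filter.1 hx).2)
  have c2 : (s2.card : ℝ) ≤ δ / 3 * (H : ℝ) ^ 2 :=
    hH2 H hHb s2 ((Finset.filter_subset _ _).trans hs) (fun x hx => (Finset.mem_filter.1 hx).2)
  have c3 : (s3.card : ℝ) ≤ δ / 3 * (H : ℝ) ^ 2 :=
    hH3 H hHc s3 ((Finset.filter_subset _ _).trans hs) (fun x hx => (Finset.mem_filter.1 hx).2)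
  have hsub : s ⊆ s1 ∪ s2 ∪ s3 := by
    intro x hx
    by_contra hcon
    rw [Finset.mem_union, Finset.mem_union, not_or, not_or] at hcon
    obtain ⟨⟨n1, n2⟩, n3⟩ := hcon
    have e1 : ∀ p : ℕ, p.Prime → z < p → ¬ (p : ℤ) ^ 2 ∣ hv P.natDegree P x.1 x.2 := by
      intro p hp hzp hdv
      exact n1 (Finset.mem_filter.2 ⟨hx, p, hp, hzp, hdv⟩)
    have e2 : ∀ p : ℕ, p.Prime → p ≤ z → ∀ e : ℕ, (p : ℤ) ^ e ∣ hv P.natDegree P x.1 x.2 →
        (p : ℝ) ^ e ≤ (H : ℝ) ^ (ε / (2 * ((z : ℝ) + 1))) := by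
      intro p hp hzp e hdv
      by_contra hlt
      push Not at hlt
      exact n2 (Finset.mem_filter.2 ⟨hx, p, hp, hzp, e, hlt, hdv⟩)
    have e3 : (H : ℝ) ^ ((P.natDegree : ℝ) - ε / 2) <
        |((hv P.natDegree P x.1 x.2 : ℤ) : ℝ)| := by
      by_contra hle
      push Not at hle
      exact n3 (Finset.mem_filter.2 ⟨hx, hle⟩)
    have := key (hv P.natDegree P x.1 x.2) z H (P.natDegree : ℝ) ε hε hHd e1 e2 e3
    exact hbad x hx ⟨e1, this.1, this.2⟩
  have hcardN : s.card ≤ s1.card + s2.card + s3.card :=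
    (Finset.card_le_card hsub).trans
      ((Finset.card_union_le _ _).trans (Nat.add_le_add_right (Finset.card_union_le _ _) _))
  have hcardR : (s.card : ℝ) ≤ s1.card + s2.card + s3.card := by exact_mod_cast hcardN
  linarith

end Pool.Agent.W995.FR.RADL
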